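import Pool.Agent.H112R2.FinalGap

set_option autoImplicit false

/-!
# The polynomial Freiman-Ruzsa conjecture for Freiman images of product sets

Let `B i` (`i < n`, with no bound on `n`) be finite sets in torsion-free abelian groups `Z i`, each with
`|B i + B i| ≤ K₀ |B i|`, and let `A` be the image of their product under a translate of a
homomorphism `φ` to an abelian group which is injective on the sumset of the product. If
`|A + A| ≤ K |A|` then `A` is covered by `K ^ C` translates of a progression of rank at most `900 log K`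
and of size at most `|A|`, where `C = 51000 (1 + log (1 + log (2 K₀)))` depends on `K₀` only. If `φ`
is injective then the progression is proper.

Here `K` is the product of the doubling constants of the factors, so it is not bounded in terms of
`K₀`. For example: all the powers of a fixed finite set `B` of integers; all the sets of the integers
whose digits in a base `b` are in a fixed set of digits, with `b` large compared to the digits, or with
digit sets of bounded doubling which depend on the position.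

In the torsion-free group `Z i` a set with at least two elements has doubling at least `3 / 2`. So all
but `O (log K)` factors are points, and the covering numbers of the factors, given by the theorem
with quasipolynomial bounds of the starting files, multiply to a power of `K`.
-/

namespace Pool.Agent.Results.MP_86f7a7_co.ProductSets

open Finset
open scoped Pointwise

/-- a factor -/
theorem factor {G : Type*} [AddCommGroup G] [DecidableEq G]
    (htf : ∀ (n : ℕ) (x : G), n ≠ 0 → n • x = 0 → x = 0) {K₀ : ℝ} {A : Finset G}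
    (hA : A.Nonempty) (hK₀ : ((A + A).card : ℝ) ≤ K₀ * A.card) :
    1 ≤ ((A + A).card : ℝ) / A.card ∧
    ∃ (k : ℕ) (v : Fin k → G) (N : Fin k → ℕ) (T : Finset G),
      (k : ℝ) ≤ 900 * Real.log (((A + A).card : ℝ) / A.card) ∧ (∀ i, 1 ≤ N i) ∧
      (∀ m n : Fin k → ℕ, (∀ i, m i < N i) → (∀ i, n i < N i) →
        ∑ i, m i • v i = ∑ i, n i • v i → m = n) ∧
      ∏ i, N i ≤ A.card ∧
      (T.card : ℝ) ≤ (((A + A).card : ℝ) / A.card) ^
        (51000 * (1 + Real.log (1 + Real.log (2 * K₀)))) ∧
      ∀ a ∈ A, ∃ t ∈ T, ∃ n : Fin k → ℕ, (∀ i, n i < N i) ∧ a = t + ∑ i, n i • v i := by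
  have hc : (0 : ℝ) < A.card := by exact_mod_cast hA.card_pos
  obtain ⟨K, hKdef⟩ : ∃ K : ℝ, K = ((A + A).card : ℝ) / A.card := ⟨_, rfl⟩
  rw [← hKdef]
  have hKA : ((A + A).card : ℝ) = K * A.card := by rw [hKdef]; field_simp
  have hKK₀ : K ≤ K₀ := by rw [hKdef, div_le_iff₀ hc]; exact hK₀
  rcases Nat.lt_or_ge 1 A.card with h1 | h1
  · have htf' : IsAddTorsionFree G := ⟨fun n hn x y h => sub_eq_zero.1 (htf n (x - y) hn (by
      rw [smul_sub]; exact sub_eq_zero.2 h))⟩
    have h2 : A.card + A.card - 1 ≤ (A + A).card := cauchy_davenport_of_isAddTorsionFree hA hA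
    have h3 : (2 : ℝ) * A.card - 1 ≤ (A + A).card := by
      have h4 : 2 * A.card ≤ (A + A).card + 1 := by omega
      have h5 : (2 : ℝ) * A.card ≤ (A + A).card + 1 := by exact_mod_cast h4
      linarith
    have h4 : (2 : ℝ) ≤ A.card := by exact_mod_cast h1
    have hK : 3 / 2 ≤ K := by
      rw [hKdef, le_div_iff₀ hc]
      linarith
    have hK3 : 2 * K ≤ K ^ 3 := by nlinarith [mul_self_nonneg (K - 3 / 2)]
    obtain ⟨k, v, N, T, hk, hN, hprop, hvol, hT, hcov⟩ := H112.near_pfr_gap' htf hA hKA.le
    have hlog : Real.log (2 * K) ≤ 3 * Real.log K := by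
      have := Real.log_le_log (by linarith : 0 < 2 * K) hK3
      rwa [Real.log_pow] at this
    have hmono : Real.log (2 * K) ≤ Real.log (2 * K₀) :=
      Real.log_le_log (by linarith) (by linarith)
    have hpos : 0 ≤ Real.log (2 * K) := Real.log_nonneg (by linarith)
    have hll : Real.log (1 + Real.log (2 * K)) ≤ Real.log (1 + Real.log (2 * K₀)) :=
      Real.log_le_log (by linarith) (by linarith)
    have hll0 : 0 ≤ Real.log (1 + Real.log (2 * K)) := Real.log_nonneg (by linarith)
    refine ⟨by linarith, k, v, N, T, by linarith, hN, hprop, hvol, hT.trans ?_, hcov⟩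
    calc (2 * K) ^ (17000 * (1 + Real.log (1 + Real.log (2 * K))))
        ≤ (2 * K) ^ (17000 * (1 + Real.log (1 + Real.log (2 * K₀)))) :=
          Real.rpow_le_rpow_of_exponent_le (by linarith) (by linarith)
      _ ≤ (K ^ 3) ^ (17000 * (1 + Real.log (1 + Real.log (2 * K₀)))) :=
          Real.rpow_le_rpow (by linarith) hK3 (by nlinarith)
      _ = K ^ (51000 * (1 + Real.log (1 + Real.log (2 * K₀)))) := by
          rw [← Real.rpow_natCast, ← Real.rpow_mul (by linarith)]
          congr 1
          push_cast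
          ring
  · obtain ⟨a, ha⟩ : ∃ a, A = {a} := Finset.card_eq_one.1 (le_antisymm h1 hA.card_pos)
    have hK1 : K = 1 := by
      rw [hKdef, ha]
      simp
    refine ⟨hK1.ge, 0, Fin.elim0, Fin.elim0, {a}, ?_, fun i => i.elim0,
      fun m n _ _ _ => Subsingleton.elim _ _, ?_, ?_, ?_⟩
    · rw [hK1]; simp
    · simpa using hA.card_pos
    · rw [hK1]; simp
    · intro b hb
      refine ⟨a, Finset.mem_singleton_self _, Fin.elim0, fun i => i.elim0, ?_⟩
      rw [ha, Finset.mem_singleton] at hb
      simp [hb]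

/-- Let `A` be the image of the product of the finite nonempty sets `B i` (`i < n`) in torsion-free
abelian groups under the map `x ↦ t₀ + φ x`, where the homomorphism `φ` is injective on the sumset of
the product with itself. If `|B i + B i| ≤ K₀ |B i|` for all `i` and `|A + A| ≤ K |A|`, then `A` is
covered by `K ^ (51000 (1 + log (1 + log (2 K₀))))` translates of a progression of rank at most
`900 log K` with `N₁ ⋯ N_d ≤ |A|`, and this progression is proper if `φ` is injective. -/
theorem result {G : Type*} [AddCommGroup G] [DecidableEq G] {n : ℕ} {Z : Fin n → Type*}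
    [∀ i, AddCommGroup (Z i)] [∀ i, DecidableEq (Z i)]
    (htf : ∀ (i : Fin n) (m : ℕ) (x : Z i), m ≠ 0 → m • x = 0 → x = 0)
    (B : ∀ i, Finset (Z i)) (hB : ∀ i, (B i).Nonempty) (K₀ : ℝ) (h1K₀ : 1 ≤ K₀)
    (hK₀ : ∀ i, ((B i + B i).card : ℝ) ≤ K₀ * (B i).card)
    (φ : (∀ i, Z i) →+ G) (hφ : Set.InjOn φ {x | ∀ i, x i ∈ B i + B i}) (t₀ : G)
    (A : Finset G) (hA : A = (Fintype.piFinset B).image fun x => t₀ + φ x)
    (K : ℝ) (hK : ((A + A).card : ℝ) ≤ K * A.card) :
    ∃ (d : ℕ) (v : Fin d → G) (N : Fin d → ℕ) (T : Finset G),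
      (d : ℝ) ≤ 900 * Real.log K ∧ (∀ i, 1 ≤ N i) ∧ ∏ i, N i ≤ A.card ∧
      (T.card : ℝ) ≤ K ^ (51000 * (1 + Real.log (1 + Real.log (2 * K₀)))) ∧
      (∀ a ∈ A, ∃ t ∈ T, ∃ m : Fin d → ℕ, (∀ i, m i < N i) ∧ a = t + ∑ i, m i • v i) ∧
      (Function.Injective φ → ∀ l m : Fin d → ℕ, (∀ i, l i < N i) → (∀ i, m i < N i) →
        ∑ i, l i • v i = ∑ i, m i • v i → l = m) := by
  classical
  -- cardinalities
  have hmem : ∀ x ∈ Fintype.piFinset B, ∀ y ∈ Fintype.piFinset B,
      x + y ∈ {x : ∀ i, Z i | ∀ i, x i ∈ B i + B i} := by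
    intro x hx y hy i
    exact Finset.add_mem_add (Fintype.mem_piFinset.1 hx i) (Fintype.mem_piFinset.1 hy i)
  have hcardA : A.card = ∏ i, (B i).card := by
    rw [hA, Finset.card_image_of_injOn, Fintype.card_piFinset]
    intro x hx y hy hxy
    have h1 : φ x = φ y := add_left_cancel hxy
    have h2 : φ (x + x) = φ (y + x) := by rw [map_add, map_add, h1]
    exact add_right_cancel (hφ (hmem x hx x hx) (hmem y hy x hx) h2)
  have hcard2 : ∏ i, (B i + B i).card ≤ (A + A).card := by
    rw [← Fintype.card_piFinset]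
    refine Finset.card_le_card_of_injOn (fun x => (t₀ + t₀) + φ x) ?_ ?_
    · intro x hx
      have hx' := Fintype.mem_piFinset.1 hx
      choose y hy z hz hyz using fun i => Finset.mem_add.1 (hx' i)
      have hxyz : x = y + z := by
        funext i
        exact (hyz i).symm
      have h1 : (t₀ + t₀) + φ x = (t₀ + φ y) + (t₀ + φ z) := by
        rw [hxyz, map_add]
        abel
      show (t₀ + t₀) + φ x ∈ A + A
      rw [h1, hA]
      exact Finset.add_mem_add (Finset.mem_image_of_mem _ (Fintype.mem_piFinset.2 hy))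
        (Finset.mem_image_of_mem _ (Fintype.mem_piFinset.2 hz))
    · intro x hx y hy hxy
      exact hφ (Fintype.mem_piFinset.1 hx) (Fintype.mem_piFinset.1 hy) (add_left_cancel hxy)
  have hcpos : ∀ i, (0 : ℝ) < (B i).card := fun i => by exact_mod_cast (hB i).card_pos
  have hApos : (0 : ℝ) < A.card := by
    rw [hcardA]
    push_cast
    exact Finset.prod_pos fun i _ => hcpos i
  have hKprod : ∏ i, (((B i + B i).card : ℝ) / (B i).card) ≤ K := by
    rw [Finset.prod_div_distrib, div_le_iff₀ (Finset.prod_pos fun i _ => hcpos i)]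
    have h1 : (∏ i, ((B i + B i).card : ℝ)) ≤ ((A + A).card : ℝ) := by exact_mod_cast hcard2
    have h2 : (A.card : ℝ) = ∏ i, ((B i).card : ℝ) := by rw [hcardA]; push_cast; rfl
    rw [h2] at hK
    exact h1.trans hK
  have hfac := fun i => factor (htf i) (hB i) (hK₀ i)
  have hge : ∀ i, 1 ≤ ((B i + B i).card : ℝ) / (B i).card := fun i => (hfac i).1
  choose k v N T hk hN hprop hvol hT hcov using fun i => (hfac i).2
  have hprod1 : 1 ≤ ∏ i, (((B i + B i).card : ℝ) / (B i).card) :=
    Finset.prod_induction _ (fun x : ℝ => 1 ≤ x) (fun a b ha hb => one_le_mul_of_one_le_of_one_le ha hb)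
      le_rfl fun i _ => hge i
  obtain ⟨E, hE⟩ : ∃ E : ℝ, E = 51000 * (1 + Real.log (1 + Real.log (2 * K₀))) := ⟨_, rfl⟩
  rw [← hE] at hT ⊢
  have hE0 : 0 ≤ E := by
    have h1 : 0 ≤ Real.log (2 * K₀) := Real.log_nonneg (by linarith)
    have h2 : 0 ≤ Real.log (1 + Real.log (2 * K₀)) := Real.log_nonneg (by linarith)
    rw [hE]
    positivity
  -- sums over all the generators
  have hsum : ∀ m : (Σ i : Fin n, Fin (k i)) → ℕ,
      ∑ j, (m (finSigmaFinEquiv.symm j)) • φ (Pi.single (finSigmaFinEquiv.symm j).1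
        (v _ (finSigmaFinEquiv.symm j).2)) = φ (fun i => ∑ j, m ⟨i, j⟩ • v i j) := by
    intro m
    rw [Equiv.sum_comp finSigmaFinEquiv.symm
      (fun p : (Σ i : Fin n, Fin (k i)) => (m p) • φ (Pi.single p.1 (v _ p.2))), Fintype.sum_sigma]
    have h1 : (fun i => ∑ j, m ⟨i, j⟩ • v i j) = ∑ i, Pi.single i (∑ j, m ⟨i, j⟩ • v i j) :=
      (Finset.univ_sum_single _).symm
    rw [h1, map_sum]
    refine Finset.sum_congr rfl fun i _ => ?_
    have h2 : (Pi.single i (∑ j, m ⟨i, j⟩ • v i j) : ∀ i, Z i) =
        ∑ j, m ⟨i, j⟩ • Pi.single i (v i j) := by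
      rw [← AddMonoidHom.single_apply, map_sum]
      refine Finset.sum_congr rfl fun j _ => ?_
      rw [map_nsmul, AddMonoidHom.single_apply]
    rw [h2, map_sum]
    refine Finset.sum_congr rfl fun j _ => ?_
    rw [map_nsmul]
  refine ⟨∑ i, k i, fun j => φ (Pi.single (finSigmaFinEquiv.symm j).1
    (v _ (finSigmaFinEquiv.symm j).2)), fun j => N _ (finSigmaFinEquiv.symm j).2,
    (Fintype.piFinset T).image fun t => t₀ + φ t, ?_, fun j => hN _ _, ?_, ?_, ?_, ?_⟩
  · -- the rank
    push_cast
    calc ∑ i, (k i : ℝ) ≤ ∑ i, 900 * Real.log (((B i + B i).card : ℝ) / (B i).card) :=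
          Finset.sum_le_sum fun i _ => hk i
      _ = 900 * Real.log (∏ i, (((B i + B i).card : ℝ) / (B i).card)) := by
          rw [Real.log_prod fun i _ => (by have := hge i; positivity), Finset.mul_sum]
      _ ≤ 900 * Real.log K := by
          have := Real.log_le_log (by linarith) hKprod
          linarith
  · -- the size
    rw [Equiv.prod_comp finSigmaFinEquiv.symm (fun p : (Σ i : Fin n, Fin (k i)) => N _ p.2),
      Fintype.prod_sigma, hcardA]
    exact Finset.prod_le_prod' fun i _ => hvol i
  · -- the number of translates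
    calc (((Fintype.piFinset T).image fun t => t₀ + φ t).card : ℝ)
        ≤ ((Fintype.piFinset T).card : ℝ) := by exact_mod_cast Finset.card_image_le
      _ = ∏ i, ((T i).card : ℝ) := by rw [Fintype.card_piFinset]; push_cast; rfl
      _ ≤ ∏ i, (((B i + B i).card : ℝ) / (B i).card) ^ E :=
          Finset.prod_le_prod (fun i _ => Nat.cast_nonneg _) fun i _ => hT i
      _ = (∏ i, (((B i + B i).card : ℝ) / (B i).card)) ^ E :=
          Real.finsetProd_rpow _ _ (fun i _ => by have := hge i; linarith) _
      _ ≤ K ^ E := Real.rpow_le_rpow (by linarith) hKprod hE0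
  · -- the covering
    intro a ha
    rw [hA] at ha
    obtain ⟨x, hx, rfl⟩ := Finset.mem_image.1 ha
    have hx' := Fintype.mem_piFinset.1 hx
    choose t ht m hm hxm using fun i => hcov i (x i) (hx' i)
    refine ⟨t₀ + φ t, Finset.mem_image_of_mem _ (Fintype.mem_piFinset.2 ht),
      fun j => m (finSigmaFinEquiv.symm j).1 (finSigmaFinEquiv.symm j).2, fun j => hm _ _, ?_⟩
    have h1 := hsum fun p => m p.1 p.2
    simp only at h1
    rw [h1, add_assoc, ← map_add]
    congr 2
    funext i
    exact hxm i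
  · -- proper
    intro hinj l m hl hm hlm
    have h1 := hsum fun p => l (finSigmaFinEquiv p)
    have h2 := hsum fun p => m (finSigmaFinEquiv p)
    simp only [Equiv.apply_symm_apply] at h1 h2
    have h3 := hinj ((h1.symm.trans hlm).trans h2)
    have hlt : ∀ f : Fin (∑ i, k i) → ℕ,
        (∀ j, f j < N (finSigmaFinEquiv.symm j).1 (finSigmaFinEquiv.symm j).2) →
        ∀ p : (Σ i : Fin n, Fin (k i)), f (finSigmaFinEquiv p) < N p.1 p.2 := by
      intro f hf p
      have h := hf (finSigmaFinEquiv p)
      rwa [Equiv.symm_apply_apply] at h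
    have h4 : ∀ i, (fun j => l (finSigmaFinEquiv (⟨i, j⟩ : Σ i : Fin n, Fin (k i)))) =
        fun j => m (finSigmaFinEquiv (⟨i, j⟩ : Σ i : Fin n, Fin (k i))) := by
      intro i
      refine hprop i _ _ (fun j => ?_) (fun j => ?_) (congrFun h3 i)
      · exact hlt l hl ⟨i, j⟩
      · exact hlt m hm ⟨i, j⟩
    funext j
    have h5 := congrFun (h4 (finSigmaFinEquiv.symm j).1) (finSigmaFinEquiv.symm j).2
    simpa only [Sigma.eta, Equiv.apply_symm_apply] using h5

end Pool.Agent.Results.MP_86f7a7_co.ProductSets
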