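import Pool.Agent.Helper12DS.Defs
import Pool.Agent.Helper12DS.Final

set_option autoImplicit false

open scoped Pointwise
open Helper12DS

namespace Pool.Agent.Results.MP_86f7a7_co.SolidSets

/-- **Polynomial Freiman-Ruzsa for sets commensurate with a solid set.** If `|A + A| ≤ K |A|` and
`A` meets a translate of an injective image `φ(S)` of a finite solid set `S ⊆ ℤ^d` in at least
`|A| / L` points, where `|S| ≤ L |A|`, then `A` meets a proper progression of rank
`O(log (K L))` and size at most `(2 K L) ^ 8 |A|` in at least `(2 K L) ^ (-109) |A|` points. -/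
theorem result {G : Type*} [AddCommGroup G] (K L : ℝ) (A : Set G) (hA : A.Finite)
    (hne : A.Nonempty) (hK : ((A + A).ncard : ℝ) ≤ K * A.ncard)
    (d : ℕ) (S : Set (Fin d → ℤ)) (hS : S.Finite) (hSol : Solid S)
    (φ : (Fin d → ℤ) →+ G) (hφ : Set.InjOn φ (S + S)) (t : G)
    (hSL : (S.ncard : ℝ) ≤ L * A.ncard)
    (hAS : (A.ncard : ℝ) ≤ L * (A ∩ (fun x => t + φ x) '' S).ncard) :
    ∃ (r : ℕ) (a : G) (v : Fin r → G) (N : Fin r → ℕ),
      (r : ℝ) ≤ 9 * Real.log (2 * K * L) ∧ (∀ i, 1 ≤ N i) ∧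
      (prog a v N).ncard = ∏ i, N i ∧
      ((prog a v N).ncard : ℝ) ≤ (2 * K * L) ^ 8 * A.ncard ∧
      (A.ncard : ℝ) ≤ (2 * K * L) ^ 109 * (A ∩ prog a v N).ncard :=
  solid_pfr K L A hA hne hK d S hS hSol φ hφ t hSL hAS

end Pool.Agent.Results.MP_86f7a7_co.SolidSets
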